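import Mathlib
import Pool.Prelude.Def_F_b1b78ff3
import Pool.Agent.N600.UK.Main
import Pool.Agent.V8H29.MK1
import Pool.Agent.V8H29.MK2

/-!
# Q1 for `C₂ ≀ X`: one base field `K₀` for all extensions `X` of a given group by universal kernels

`X` is a finite group acting on itself by multiplication, and `G = C₂ ≀ X` acts on `X × {0, 1}`.

(2) Let `Y` be any finite group. There is a number field `K₀` such that the asymptotic formula of Q1 holds for
`G = C₂ ≀ X` over EVERY number field `K ⊇ K₀` and for ALL finite groups `X` with a normal subgroup `N` in the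
class `Univ` (file `Pool/Agent/N600/UK/Defs.lean`) such that `X / N ≅ Y` and `N` is large compared to `Y`
(`Roomy`; it holds if `N ≅ A ≀ S_n`, `n ≥ 12`, `n ≥ |Y|`). There is no condition on the extension
`1 → N → X → Y → 1`. The class `Univ` contains the twofold wreath products `(A ≀ S_m) ≀ S_n` of every nontrivial
finite group `A` with trivial centre, with `|Out A|` dividing `m` and `m`, `n` large. If `Y` is a Galois group
over `K₀` for another reason, see the last part.

(1) For every finite group `H` with a subgroup `U` with trivial core and `8 [H : U] ([H : U] + 1) ≤ |H|` (that is,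
for every transitive permutation group of degree `m` and order at least `8 m (m + 1)`, considered as an abstract
group acting on itself) there is a number field `K₀` such that the asymptotic formula of Q1 holds for `C₂ ≀ H`
over every number field `K ⊇ K₀`.
-/

set_option autoImplicit false

open Filter

namespace Pool.Agent.Results.MP_b39724_nt.UniformBaseFields

open Nfff32c05 (IsRealizable)
open Pool.Agent.N600.UK (Univ)
open Pool.Agent.H391R2 (Wr)

/-- `G ≤ S_n` is, up to a bijection `f` of `{1, ..., n}` with `H × {0, 1}`, the wreath product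
`C₂ ≀ H`: it consists of all permutations `π` for which there is `h ∈ H` such that `π` maps the block
`{x} × {0, 1}` to the block `{h x} × {0, 1}`, for all `x ∈ H`. -/
def IsC2Wreath (H : Type) [Group H] {n : ℕ} (G : Subgroup (Equiv.Perm (Fin n))) : Prop :=
  ∃ f : Fin n ≃ H × Bool, ∀ π : Equiv.Perm (Fin n), π ∈ G ↔ ∃ h : H, ∀ i, (f (π i)).1 = h * (f i).1

/-- The small `G`-fields over `K` in the algebraic closure of `K` with `d_L ≤ B`: the fields `L` of degree `n`
over `K` whose Galois group, acting on the embeddings, is `G` (up to numbering), and whose relative discriminant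
has norm at most `B` (that is, `|disc L| ≤ B |disc K| ^ n`). -/
def Fie (K : Type) [Field K] [NumberField K] {n : ℕ} (G : Subgroup (Equiv.Perm (Fin n)))
    (B : ℝ) : Set (IntermediateField K (AlgebraicClosure K)) :=
  {L | Module.finrank K L = n ∧
    (∃ e : (L →ₐ[K] AlgebraicClosure K) ≃ Fin n, ∀ π : Equiv.Perm (Fin n),
      π ∈ G ↔ ∃ σ : AlgebraicClosure K ≃ₐ[K] AlgebraicClosure K,
        ∀ φ : L →ₐ[K] AlgebraicClosure K, e (σ.toAlgHom.comp φ) = π (e φ)) ∧
    ∃ h : NumberField L,
      ((|@NumberField.discr L _ h| : ℤ) : ℝ) ≤ B * ((|NumberField.discr K| : ℤ) : ℝ) ^ n}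

/-- `n_K(G, B)`: the number of these fields up to `K`-isomorphism. -/
noncomputable def count (K : Type) [Field K] [NumberField K] {n : ℕ}
    (G : Subgroup (Equiv.Perm (Fin n))) (B : ℝ) : ℕ :=
  Nat.card (Quot fun L L' : Fie K G B => Nonempty (L.1 ≃ₐ[K] L'.1))

/-- The index of a permutation: `n` minus the number of its cycles, fixed points included. -/
def ind {n : ℕ} (g : Equiv.Perm (Fin n)) : ℕ := g.cycleType.sum - Multiset.card g.cycleType

/-- `ind(G) = min ind(g)`, the minimum over the `g ≠ 1` in `G`. -/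
noncomputable def indG {n : ℕ} (G : Subgroup (Equiv.Perm (Fin n))) : ℕ :=
  sInf {j : ℕ | ∃ g ∈ G, g ≠ 1 ∧ j = ind g}

/-- `h` is conjugate in `G` to `g ^ a` for some `a` in the image of the cyclotomic character modulo `|G|`: some
`σ ∈ Gal(K̄/K)` acts on the roots of unity of order dividing `|G|` as `ζ ↦ ζ ^ a`. -/
def KConj (K : Type) [Field K] {n : ℕ} (G : Subgroup (Equiv.Perm (Fin n))) (g h : G) : Prop :=
  ∃ (a : ℕ) (σ : AlgebraicClosure K ≃ₐ[K] AlgebraicClosure K),
    (∀ ζ : AlgebraicClosure K, ζ ^ Nat.card G = 1 → σ ζ = ζ ^ a) ∧ IsConj (g ^ a) h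

/-- `β_K(G)`: the number of the `K`-conjugacy classes of elements of index `ind(G)` (different from the
identity). -/
noncomputable def beta (K : Type) [Field K] {n : ℕ} (G : Subgroup (Equiv.Perm (Fin n))) : ℕ :=
  Nat.card (Quot fun g h : {g : G // g ≠ 1 ∧ ind g.1 = indG G} => KConj K G g.1 h.1)

/-- The asymptotic formula of Q1 for `G` over `K`. -/
def Asymptotic (K : Type) [Field K] [NumberField K] {n : ℕ} (G : Subgroup (Equiv.Perm (Fin n))) :
    Prop :=
  ∃ C : ℝ, 0 < C ∧ Tendsto (fun B : ℝ => (count K G B : ℝ) /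
    (B ^ ((1 : ℝ) / indG G) * Real.log B ^ (beta K G - 1))) atTop (nhds C)

/-- The asymptotic formula of Q1 holds over `K` for all permutation groups of the form `C₂ ≀ H`, and there are
such groups: they are transitive of degree `2 |H|`. -/
def HoldsFor (K : Type) [Field K] [NumberField K] (H : Type) [Group H] : Prop :=
  (∀ (n : ℕ) (G : Subgroup (Equiv.Perm (Fin n))), IsC2Wreath H G → Asymptotic K G) ∧
  ∃ (n : ℕ) (G : Subgroup (Equiv.Perm (Fin n))), n = 2 * Nat.card H ∧ IsC2Wreath H G ∧
    ∀ i j : Fin n, ∃ g ∈ G, g i = j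

/-- `P K` holds for all number fields `K` which contain (a copy of) the number field `K₀`. -/
def ForAllAbove (K₀ : IntermediateField ℚ (AlgebraicClosure ℚ))
    (P : ∀ (K : Type) [Field K] [NumberField K], Prop) : Prop :=
  ∀ (K : Type) [Field K] [NumberField K], Nonempty (K₀ →+* K) → P K

/-- `T` has a subgroup `V` with trivial core and `16 q [T : V] ^ 2 ≤ |T|`. -/
def Roomy (q : ℕ) (T : Type) [Group T] : Prop :=
  ∃ V : Subgroup T, V.normalCore = ⊥ ∧ 16 * q * V.index ^ 2 ≤ Nat.card T

theorem exists_group (H : Type) [Group H] [Finite H] : ∃ (d : ℕ)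
    (G : Subgroup (Equiv.Perm (Fin d))), d = 2 * Nat.card H ∧ IsC2Wreath H G ∧
      ∀ i j : Fin d, ∃ g ∈ G, g i = j := by
  have hcard : Nat.card (H × Bool) = 2 * Nat.card H := by
    rw [Nat.card_prod, mul_comm]
    simp
  let f : Fin (2 * Nat.card H) ≃ H × Bool := (Finite.equivFinOfCardEq hcard).symm
  let G : Subgroup (Equiv.Perm (Fin (2 * Nat.card H))) :=
    { carrier := {π | ∃ h : H, ∀ i, (f (π i)).1 = h * (f i).1}
      one_mem' := ⟨1, fun i => by simp⟩
      mul_mem' := by
        rintro π ρ ⟨h, hh⟩ ⟨h', hh'⟩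
        refine ⟨h * h', fun i => ?_⟩
        rw [Equiv.Perm.mul_apply, hh, hh', mul_assoc]
      inv_mem' := by
        rintro π ⟨h, hh⟩
        refine ⟨h⁻¹, fun i => ?_⟩
        have h1 := hh (π⁻¹ i)
        rw [show π (π⁻¹ i) = i from π.apply_symm_apply i] at h1
        rw [h1, inv_mul_cancel_left] }
  refine ⟨2 * Nat.card H, G, rfl, ⟨f, fun π => Iff.rfl⟩, fun i j => ?_⟩
  let t : Equiv.Perm (H × Bool) :=
    (Equiv.mulLeft ((f j).1 * (f i).1⁻¹)).prodCongr (Equiv.swap (f i).2 (f j).2)
  refine ⟨f.trans (t.trans f.symm), ⟨(f j).1 * (f i).1⁻¹, fun x => ?_⟩, ?_⟩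
  · simp [t]
  · change f.symm (t (f i)) = j
    rw [Equiv.symm_apply_eq]
    exact Prod.ext (by simp [t]) (by simp [t])

theorem indG_eq {H : Type} [Group H] [Finite H] {n : ℕ} {G : Subgroup (Equiv.Perm (Fin n))}
    (hG : IsC2Wreath H G) : indG G = 1 :=
  (Pool.Agent.TH444.ML.least_ind (H := H) hG).csInf_eq

theorem beta_eq (K : Type) [Field K] {H : Type} [Group H] [Finite H] (h2 : 2 ≤ Nat.card H) {n : ℕ}
    {G : Subgroup (Equiv.Perm (Fin n))} (hG : IsC2Wreath H G) : beta K G = 1 := by
  have hi := indG_eq hG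
  have hconj : ∀ g h : {g : G // g ≠ 1 ∧ ind g.1 = indG G}, KConj K G g.1 h.1 := by
    intro g h
    refine ⟨1, AlgEquiv.refl, fun ζ _ => by simp, ?_⟩
    rw [pow_one]
    exact Pool.Agent.TH444.ML.conj_of_ind_one (H := H) h2 hG g.1 h.1
      (g.2.2.trans hi) (h.2.2.trans hi)
  obtain ⟨g, h3, h4, h5⟩ := Pool.Agent.TH444.ML.exists_ind_one (H := H) hG
  have hne : Nonempty {g : G // g ≠ 1 ∧ ind g.1 = indG G} := by
    refine ⟨⟨⟨g, h3⟩, ?_, ?_⟩⟩
    · intro h
      exact h4 (congrArg Subtype.val h)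
    · rw [hi]
      exact h5
  unfold beta
  rw [Nat.card_eq_one_iff_unique]
  refine ⟨⟨fun a b => ?_⟩, hne.map (Quot.mk _)⟩
  induction a using Quot.ind with
  | mk a =>
    induction b using Quot.ind with
    | mk b => exact Quot.sound (hconj a b)

theorem holds_of (K : Type) [Field K] [NumberField K] (H : Type) [Group H] [Finite H]
    (h2 : 2 ≤ Nat.card H) (U : Subgroup H) (hU : U.normalCore = ⊥)
    (hc : 8 * U.index * (U.index + 1) ≤ Nat.card H) (hK : IsRealizable K H) : HoldsFor K H := by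
  refine ⟨fun n G hG => ?_, exists_group H⟩
  obtain ⟨⟨L, i1, i2, i3, γ⟩⟩ := hK.exists_realization
  obtain ⟨C, hC, hlim⟩ := Pool.Agent.TH444.ML.asymp_iso Pool.Agent.TH444.ML.rest K H h2 U hU hc
    (V8H29.MK.gal_of_real K (AlgebraicClosure K) H ⟨L, i1, i2, i3, ⟨γ⟩⟩) G hG
  refine ⟨C, hC, ?_⟩
  rw [indG_eq hG, beta_eq K h2 hG]
  refine hlim.congr fun B => ?_
  simp only [Nat.cast_one, div_one, Real.rpow_one, Nat.sub_self, pow_zero, mul_one]
  rfl

/-- (1) For every finite group `H` with a subgroup `U` with trivial core and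
`8 [H : U] ([H : U] + 1) ≤ |H|` there is a number field `K₀` such that the asymptotic formula of Q1 holds for
`C₂ ≀ H` over all number fields `K ⊇ K₀`. (2) For every finite group `Y` there is a number field `K₀` such that
the asymptotic formula of Q1 holds for `C₂ ≀ X` over all number fields `K ⊇ K₀` and for all groups `X` with a
normal subgroup `N` such that `X / N ≅ Y` and `N` is isomorphic to a group `T` in the class `Univ` with
`Roomy |Y| T`. (3) `Roomy q (A ≀ S_n)` holds for all finite groups `A` and all `n ≥ 12`, `n ≥ q`. -/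
theorem result :
    (∀ (H : Type) [Group H] [Finite H] (U : Subgroup H), U.normalCore = ⊥ →
      8 * U.index * (U.index + 1) ≤ Nat.card H →
      ∃ K₀ : IntermediateField ℚ (AlgebraicClosure ℚ), FiniteDimensional ℚ K₀ ∧
        ForAllAbove K₀ fun K => HoldsFor K H) ∧
    (∀ (Y : Type) [Group Y] [Finite Y],
      ∃ K₀ : IntermediateField ℚ (AlgebraicClosure ℚ), FiniteDimensional ℚ K₀ ∧
        ∀ (T : Type) [Group T], Univ T → Roomy (Nat.card Y) T →
          ∀ (X : Type) [Group X] (N : Subgroup X) [N.Normal], Nonempty (N ≃* T) →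
            Nonempty (X ⧸ N ≃* Y) → ForAllAbove K₀ fun K => HoldsFor K X) ∧
    (∀ (A : Type) [Group A] [Finite A] (n q : ℕ), 12 ≤ n → q ≤ n → Roomy q (Wr A n)) := by
  refine ⟨?_, ?_, fun A _ _ n q hn hq => V8H29.MK.roomy_wr A n q hn hq⟩
  · intro H _ _ U hU hc
    obtain ⟨K₀, hfd, hK₀⟩ := V8H29.MK.exists_base H
    refine ⟨K₀, hfd, fun K _ _ hK => ?_⟩
    have h2 : 2 ≤ Nat.card H := by
      have hi : 1 ≤ U.index := Nat.one_le_iff_ne_zero.2 Subgroup.index_ne_zero_of_finite
      nlinarith
    exact holds_of K H h2 U hU hc (hK₀ K hK)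
  · intro Y _ _
    obtain ⟨K₀, hfd, hK₀⟩ := V8H29.MK.exists_base Y
    refine ⟨K₀, hfd, ?_⟩
    intro T _ hT hr X _ N _ hN hY K _ _ hK
    obtain ⟨e⟩ := hN
    obtain ⟨e'⟩ := hY
    have hfT : Finite T := hT.main.1
    have hfN : Finite N := Finite.of_equiv T e.symm.toEquiv
    have hfin : Finite (X ⧸ N) := Finite.of_equiv Y e'.symm.toEquiv
    have hcd : Nat.card (X ⧸ N) = Nat.card Y := Nat.card_congr e'.toEquiv
    have hr' : V8H29.MK.Roomy (Nat.card (X ⧸ N)) N := by
      rw [hcd]
      exact V8H29.MK.roomy_iso e.symm hr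
    obtain ⟨hX, h2, U, hU, hc⟩ := V8H29.MK.data_of N hfN hfin hr'
    have hreal : IsRealizable K (X ⧸ N) := by
      obtain ⟨⟨L, i1, i2, i3, γ⟩⟩ := (hK₀ K hK).exists_realization
      exact ⟨⟨⟨L, i1, i2, i3, e'.trans γ⟩⟩⟩
    have h3 : IsRealizable K X :=
      (hT.real_hilb K (H391R2.T4.hilb_numberField K) X N ⟨e⟩ hfin).2 hreal
    exact holds_of K X h2 U hU hc h3

end Pool.Agent.Results.MP_b39724_nt.UniformBaseFields
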